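import Pool.Agent.Y947.RL.Stm

/-!
RL-PSD: the energies over the classes are positive semidefinite.
-/

set_option autoImplicit false
set_option linter.all false

open Finset Polynomial Module Pool.Agent.H388SL Pool.Agent.Y947.DL

namespace Pool.Agent.Y528.RL

open Pool.Agent.Y947.RL

theorem psdE : S_PSD := by
  classical
  intro K _ _ ζ α ε hε ι I p s x hp
  set U : Finset (ι × (K →ₐ[ℚ] ℂ)) := I ×ˢ (Finset.univ : Finset (K →ₐ[ℚ] ℂ)) with hU
  set key : ι × (K →ₐ[ℚ] ℂ) → ℂ := fun a => (a.2 ζ) ^ s a.1 with hkey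
  set W : ι × (K →ₐ[ℚ] ℂ) → ℂ := fun a => ww α ε a.2 ^ p a.1 with hW
  have e : ∑ i ∈ I, ∑ j ∈ I, x i * x j * EP ζ α ε (p i) (p j) (s i) (s j) =
      ∑ a ∈ U, ∑ b ∈ U, if key a = key b then
        x a.1 * x b.1 * (-Real.log ‖1 - W a * starRingEnd ℂ (W b)‖) else 0 := by
    rw [hU]
    simp only [Finset.sum_product]
    refine Finset.sum_congr rfl fun i _ => ?_
    rw [Finset.sum_comm (s := (Finset.univ : Finset (K →ₐ[ℚ] ℂ))) (t := I)]
    refine Finset.sum_congr rfl fun j _ => ?_
    unfold EP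
    rw [Finset.mul_sum]
    refine Finset.sum_congr rfl fun σ _ => ?_
    rw [Finset.mul_sum]
    refine Finset.sum_congr rfl fun τ _ => ?_
    simp only [hkey, hW]
    split_ifs <;> simp
  rw [e, ← Finset.sum_fiberwise_of_maps_to (s := U) (t := U.image key) (g := key)
    (fun a ha => Finset.mem_image_of_mem key ha)]
  refine Finset.sum_nonneg fun c _ => ?_
  have h1 := psd (U.filter fun a => key a = c) (fun a => x a.1) W (fun a ha => by
    have ha1 := (Finset.mem_filter.1 ha).1
    rw [hU, Finset.mem_product] at ha1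
    simp only [hW, norm_pow]
    exact pow_lt_one₀ (norm_nonneg _) (ww_norm hε _) (hp _ ha1.1).ne')
  refine h1.trans (le_of_eq ?_)
  refine Finset.sum_congr rfl fun a ha => ?_
  have ha2 := (Finset.mem_filter.1 ha).2
  rw [Finset.sum_filter]
  refine Finset.sum_congr rfl fun b _ => ?_
  rw [ha2]
  by_cases h : key b = c
  · rw [if_pos h, if_pos h.symm]
  · rw [if_neg h, if_neg (fun h' => h h'.symm)]

end Pool.Agent.Y528.RL
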